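import Mathlib
import Pool.Agent.Lib_MP_f38362_gt.Games
import Pool.Agent.Lib_MP_f38362_gt.RegularGames
import Pool.Agent.Lib_MP_f38362_gt.RegularSpace
import Pool.Agent.Lib_MP_f38362_gt.RegularMain

/-!
# A countable zero-dimensional Hausdorff space, in ZFC, on which the games are undetermined

The points are the finite partial functions from `ℕ` to `ℕ`. For a family `f α`, `α < ω₁`, of
infinite partial functions a set `W` is open if for each `a ∈ W` there are a finite `F ⊆ ω₁` and
`m` such that `W` contains all finite partial functions `b ⊇ a` for which `b \ a` has only levels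
at least `m` and is disjoint from all `f α`, `α ∈ F`. The family is constructed in three cases,
according to whether `𝔟 > ℵ₁` and whether any `ℵ₁` many reals are guessed infinitely often by a
single real.
-/

open Set MP_f38362_gt

namespace Pool.Agent.Results.MP_f38362_gt.CountableRegular

open Pool.Agent.Lib_MP_f38362_gt.Regular

/-- **Main theorem** (ZFC). There is a countable zero-dimensional Hausdorff (hence regular and
normal) space on which the following games are all undetermined: the game `G₁(𝒟,𝒟)`, `𝒟` =
families of open sets with dense union; the open-point game of Berner and Juhász; and its dual, the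
game `G₁(𝔇,𝔇)`, `𝔇` = dense subsets. -/
theorem result :
    ∃ (X : Type) (_ : TopologicalSpace X), Countable X ∧ T2Space X ∧
      TopologicalSpace.IsTopologicalBasis {U : Set X | IsClopen U} ∧
      DenseFamiliesUndetermined X ∧ OpenPointUndetermined X ∧ DenseSetsUndetermined X := by
  obtain ⟨f, hf1, hf2⟩ := exists_family
  let _ := space f
  have h1 : Avoid Pt := fun O hO =>
    exists_nondense Pool.Agent.Lib_MP_f38362_gt.OpenPoint.not_countable_W1 hf1 O hO
  have h2 : Meet Pt := by
    intro R hR
    obtain ⟨x, hx1, hx2⟩ := hf2 R (fun s a F m => by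
      obtain ⟨y, hy1, hy2⟩ := (hR s).inter_open_nonempty _ (isOpen_T (f := f) a F m)
        ⟨a, self_mem_T a F m⟩
      exact ⟨y, hy2, hy1⟩)
    refine ⟨x, hx1, dense_of _ fun a F m => ?_⟩
    obtain ⟨n, hn⟩ := hx2 a F m
    exact ⟨x n, mem_range_self n, hn⟩
  exact ⟨Pt, space f, inferInstance, t2, basis, denseFamilies_of h1 h2, openPoint_of h1 h2,
    denseSets_of h1 h2⟩

end Pool.Agent.Results.MP_f38362_gt.CountableRegular
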